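import Pool.Agent.Helper28.Ram.Goals

/-!
# Packet MLS: the machines on numbers of the simulation form a family computed in linear space
-/

namespace Pool.Agent.Helper59.Ram

open Pool.Agent.Helper65.LinSpace Pool.Agent.Helper78.Mpc Pool.Agent.Helper28.Ram Finset

variable {α : Type} [Ctx α]

theorem LS_gR {n : α → ℕ} (hn : LS n) : LS (fun a => gR (n a)) := by
  unfold gR
  fun_prop

theorem LS_CR {x : α → ℕ} (hx : LS x) : LS (fun a => CR (x a)) := by
  unfold CR
  exact (LS.add hx (LS.const 2)).pow_const 8000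

theorem LS_accN {v : α → ℕ} (hv : LS v) : LS (fun a => accN (v a)) := by
  unfold accN
  fun_prop

theorem CM_le_CR (x : ℕ) : CM x ≤ CR x := by
  unfold CM CR
  exact Nat.pow_le_pow_right (by omega) (by norm_num)

theorem gR_pos (n : ℕ) : 0 < gR n := by
  unfold gR
  omega

theorem gR_le (n : ℕ) : gR n ≤ n + 1 := by
  unfold gR
  have h1 : Nat.sqrt (n / ll n) ≤ n / ll n := Nat.sqrt_le_self _
  have h2 : n / ll n ≤ n := Nat.div_le_self _ _
  omega

theorem pow_S_le (x S : ℕ) : 2 ^ (min S (gR (Nat.log 2 x) - 1) + 1) ≤ CR x := by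
  refine le_trans ?_ (CM_le_CR x)
  refine two_pow_le_CM ?_
  have h1 := gR_le (Nat.log 2 x)
  have h2 : min S (gR (Nat.log 2 x) - 1) ≤ gR (Nat.log 2 x) - 1 := min_le_right _ _
  omega

theorem pow_ll_le (x : ℕ) : 2 ^ (2 * ll (Nat.log 2 x)) ≤ CR x := by
  refine le_trans ?_ (CM_le_CR x)
  refine two_pow_le_CM ?_
  have h2 := ll_le (Nat.log 2 x)
  omega

theorem MLS : MLS_stmt := by
  intro α _ eA eN eW ini B0 st x y S heA heN heW hini hB0 hst hx hy hS
  have hn : LS (fun z => Nat.log 2 (x z)) := LS.log2 hx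
  have hg : LS (fun z => gR (Nat.log 2 (x z))) := LS_gR hn
  have hS' : LS (fun z => min (S z) (gR (Nat.log 2 (x z)) - 1)) :=
    LS.min hS (LS.sub hg (LS.const 1))
  have hC : LS (fun z => CR (x z)) := LS_CR hx
  have hΛ : LS (fun z => LW (Nat.log 2 (x z))) := LS.LW hn
  have hβ : LS (fun z => 2 ^ (2 * ll (Nat.log 2 (x z)))) :=
    LS.pow_of_le (f := fun _ => 2) (by fun_prop) (by fun_prop) hC fun z => pow_ll_le (x z)
  have hβ0 : ∀ z, 0 < 2 ^ (2 * ll (Nat.log 2 (x z))) := fun z => by positivity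
  have hb : ∀ z, (2 ^ (2 * ll (Nat.log 2 (x z)))) ^ LW (Nat.log 2 (x z)) ≤ CR (x z) :=
    fun z => (beta_pow_le (x z)).trans (CM_le_CR (x z))
  have hb2 : ∀ z, 2 ^ (min (S z) (gR (Nat.log 2 (x z)) - 1) + 1) ≤ CR (x z) :=
    fun z => pow_S_le (x z) (S z)
  -- functions of a further argument
  have hfn : ∀ {β : Type} [Ctx β] (π : β → α) (e : α → ℕ) (u : β → ℕ), LS π → LS e → LS u →
      LS (fun b => fnN (e (π b)) (min (S (π b)) (gR (Nat.log 2 (x (π b))) - 1))
        (LW (Nat.log 2 (x (π b)))) (2 ^ (2 * ll (Nat.log 2 (x (π b))))) (CR (x (π b))) (u b)) := by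
    intro β _ π e u hπ he hu
    have h1 : LS (fun b => e (π b)) := LS.comp (g := e) he hπ
    have h2 : LS (fun b => min (S (π b)) (gR (Nat.log 2 (x (π b))) - 1)) :=
      LS.comp (g := fun z => min (S z) (gR (Nat.log 2 (x z)) - 1)) hS' hπ
    have h3 : LS (fun b => LW (Nat.log 2 (x (π b)))) :=
      LS.comp (g := fun z => LW (Nat.log 2 (x z))) hΛ hπ
    have h4 : LS (fun b => 2 ^ (2 * ll (Nat.log 2 (x (π b))))) :=
      LS.comp (g := fun z => 2 ^ (2 * ll (Nat.log 2 (x z)))) hβ hπ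
    have h5 : LS (fun b => CR (x (π b))) := LS.comp (g := fun z => CR (x z)) hC hπ
    exact LS.fnN h1 h2 h3 h4 h5 hu h5 (fun b => hβ0 (π b)) (fun b => hb (π b))
      (fun b => hb2 (π b))
  have hcap : ∀ {β : Type} [Ctx β] (π : β → α) (u : β → ℕ), LS π → LS u →
      LS (fun b => capN (min (S (π b)) (gR (Nat.log 2 (x (π b))) - 1)) (u b)) := by
    intro β _ π u hπ hu
    exact LS.capN (LS.comp (g := fun z => min (S z) (gR (Nat.log 2 (x z)) - 1)) hS' hπ) hu
  refine ⟨?_, ?_, hg, ?_, ?_, ?_, ?_, ?_, hC, ?_, hb2⟩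
  · show LS (fun z => min (S z) (gR (Nat.log 2 (x z)) - 1) + 1)
    exact LS.add hS' (LS.const 1)
  · show LS (fun z => gR (Nat.log 2 (x z)) / (min (S z) (gR (Nat.log 2 (x z)) - 1) + 1))
    exact LS.div hg (LS.add hS' (LS.const 1))
  · -- A
    have h1 : LS (fun b : α × ℕ => capN (min (S b.1) (gR (Nat.log 2 (x b.1)) - 1))
        (fnN (eA b.1) (min (S b.1) (gR (Nat.log 2 (x b.1)) - 1)) (LW (Nat.log 2 (x b.1)))
          (2 ^ (2 * ll (Nat.log 2 (x b.1)))) (CR (x b.1)) b.2)) :=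
      hcap (fun b : α × ℕ => b.1) _ (by fun_prop)
        (hfn (fun b : α × ℕ => b.1) eA (fun b => b.2) (by fun_prop) heA (by fun_prop))
    exact LS.sub h1 (LS.pow_log h1)
  · -- N
    have h0 := hfn (fun b : α × ℕ × ℕ => b.1) eA (fun b => b.2.1) (by fun_prop) heA (by fun_prop)
    have hc : LS (fun b : α × ℕ × ℕ => catN (sdN b.2.1) b.2.2) := by fun_prop
    have h1 := hfn (fun b : α × ℕ × ℕ => b.1) eW (fun b => catN (sdN b.2.1) b.2.2)
      (by fun_prop) heW hc
    have h2 := hfn (fun b : α × ℕ × ℕ => b.1) eN (fun b => catN (sdN b.2.1) b.2.2)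
      (by fun_prop) heN hc
    have hq : LS (fun b : α × ℕ × ℕ => b.2.1) := by fun_prop
    have hv : LS (fun b : α × ℕ × ℕ => b.2.2) := by fun_prop
    exact hcap (fun b : α × ℕ × ℕ => b.1) _ (by fun_prop)
      (LS.ifz (LS_accN hq) (LS.ifz (LS.mul h0 (LS.mul hv h1)) (LS.const 0) h2) hq)
  · -- W
    have hc : LS (fun b : α × ℕ × ℕ => catN (sdN b.2.1) b.2.2) := by fun_prop
    have h1 := hfn (fun b : α × ℕ × ℕ => b.1) eW (fun b => catN (sdN b.2.1) b.2.2)
      (by fun_prop) heW hc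
    have hq : LS (fun b : α × ℕ × ℕ => b.2.1) := by fun_prop
    have hv : LS (fun b : α × ℕ × ℕ => b.2.2) := by fun_prop
    exact hcap (fun b : α × ℕ × ℕ => b.1) _ (by fun_prop) (LS.ifz (LS_accN hq) h1 hv)
  · -- q0
    exact LS.capN hS' hst
  · -- M0
    have ha : LS (fun b : α × ℕ => b.2) := by fun_prop
    have hx' : LS (fun b : α × ℕ => x b.1) := by fun_prop
    have hy' : LS (fun b : α × ℕ => y b.1) := by fun_prop
    have hd : LS (fun b : α × ℕ => dig (B0 b.1) (ini b.1) (3 * letN (x b.1) b.2 + letN (y b.1) b.2)) := by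
      fun_prop
    exact hcap (fun b : α × ℕ => b.1) _ (by fun_prop) hd
  · -- ok
    intro z
    refine ⟨Nat.succ_pos _, ?_, ?_, ?_, ?_, ?_, ?_⟩
    · show 0 < gR (Nat.log 2 (x z)) / (min (S z) (gR (Nat.log 2 (x z)) - 1) + 1)
      have h1 := gR_pos (Nat.log 2 (x z))
      have h2 : min (S z) (gR (Nat.log 2 (x z)) - 1) ≤ gR (Nat.log 2 (x z)) - 1 := min_le_right _ _
      exact Nat.div_pos (by omega) (by omega)
    · intro q
      exact lt_of_le_of_lt (Nat.sub_le _ _) (capN_lt _ _)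
    · intro q v
      exact capN_lt _ _
    · intro q v
      exact capN_lt _ _
    · exact capN_lt _ _
    · intro a
      exact capN_lt _ _

end Pool.Agent.Helper59.Ram
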